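import Mathlib
import Pool.Agent.H59.KG10

/-!
# Maximum `(k,l)`-sum-free sets in finite abelian groups

`mu k l G` is the largest size of a `(k,l)`-sum-free subset of `G`, i.e. of a set `A` whose
`k`-fold and `l`-fold sumsets are disjoint.

`result`: for `k > l ≥ 1` with `k + l ≥ 4` and every finite abelian group `G` of exponent `κ`,
`κ * mu k l G = |G| * mu k l (ZMod κ)`, if either `(k - l) ^ 2 < k + l`, or `κ` is not divisible by
any bad prime power, i.e. by any `p ^ (b + 1)`, where `p` is a prime and `p ^ b` (`b ≥ 1`) is the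
exact power of `p` dividing `k - l`, such that the residue of `p ^ (b + 1)` modulo `k + l` lies in
`{1, ..., p ^ b}`.

Ingredients: Kneser's theorem (`Pool.Agent.H59.Kneser`), a stronger inequality for pairs of sets
`V ⊆ W` such that no zero-sum tuple of `W` meets `V`, proved by induction on `|G|`
(`Pool.Agent.H59.KG`), and the case of prime exponents (`Pool.Agent.H59.KL`).
-/

set_option autoImplicit false

open Finset Pointwise

namespace Pool.Agent.Results.MP_eddea8_co.AllGroups

open Pool.Agent.H59.KL (SF sf_iff)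

/-- The largest size of a subset of `G` whose `k`-fold and `l`-fold sumsets are disjoint. -/
def mu (k l : ℕ) (G : Type) [AddCommGroup G] [Fintype G] [DecidableEq G] : ℕ :=
  (Finset.univ.filter (fun A : Finset G =>
    Disjoint ((Fintype.piFinset (fun _ : Fin k => A)).image (fun f : Fin k → G => ∑ i, f i))
      ((Fintype.piFinset (fun _ : Fin l => A)).image (fun f : Fin l → G => ∑ i, f i)))).sup
    Finset.card

lemma exists_mu (k l : ℕ) (hk : 0 < k) (G : Type) [AddCommGroup G] [Fintype G]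
    [DecidableEq G] : ∃ A : Finset G, SF k l A ∧ mu k l G = A.card := by
  obtain ⟨A, hA, hAc⟩ := exists_mem_eq_sup (Finset.univ.filter (fun A : Finset G =>
    Disjoint ((Fintype.piFinset (fun _ : Fin k => A)).image (fun f : Fin k → G => ∑ i, f i))
      ((Fintype.piFinset (fun _ : Fin l => A)).image (fun f : Fin l → G => ∑ i, f i))))
    (by
      refine ⟨∅, ?_⟩
      rw [mem_filter, sf_iff]
      exact ⟨mem_univ _, Pool.Agent.H59.KG.sf_empty k l hk⟩) Finset.card
  rw [mem_filter, sf_iff] at hA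
  exact ⟨A, hA.2, hAc⟩

lemma le_mu (k l : ℕ) (G : Type) [AddCommGroup G] [Fintype G] [DecidableEq G] (A : Finset G)
    (hA : SF k l A) : A.card ≤ mu k l G := by
  apply le_sup (f := Finset.card)
  rw [mem_filter, sf_iff]
  exact ⟨mem_univ _, hA⟩

/-- Bajnok's conjecture for all finite abelian groups without a bad exponent. -/
theorem result (k l : ℕ) (hl : 0 < l) (hlk : l < k) (h4 : 4 ≤ k + l)
    (G : Type) [AddCommGroup G] [Fintype G] [DecidableEq G] (κ : ℕ) [NeZero κ]
    (hexp : AddMonoid.exponent G = κ)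
    (hbad : (k - l) ^ 2 < k + l ∨
      ∀ p b : ℕ, p.Prime → 0 < b → p ^ b ∣ k - l → ¬ p ^ (b + 1) ∣ k - l →
        p ^ (b + 1) ∣ κ → ¬ (1 ≤ p ^ (b + 1) % (k + l) ∧ p ^ (b + 1) % (k + l) ≤ p ^ b)) :
    κ * mu k l G = Fintype.card G * mu k l (ZMod κ) := by
  have hbad' : ∀ p b : ℕ, p.Prime → 0 < b → p ^ b ∣ k - l → ¬ p ^ (b + 1) ∣ k - l →
      p ^ (b + 1) ∣ κ → ¬ (1 ≤ p ^ (b + 1) % (k + l) ∧ p ^ (b + 1) % (k + l) ≤ p ^ b) := by
    rcases hbad with hsq | hbad
    · intro p b hp hb hpb _ _ hres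
      have h1 : p ^ b ≤ k - l := Nat.le_of_dvd (by omega) hpb
      have h2 : p ^ (b + 1) ≤ p ^ (2 * b) := Nat.pow_le_pow_right hp.pos (by omega)
      have h3 : p ^ (2 * b) = (p ^ b) ^ 2 := by rw [mul_comm, pow_mul]
      have h4 : (p ^ b) ^ 2 ≤ (k - l) ^ 2 := Nat.pow_le_pow_left h1 2
      have h5 : p ^ (b + 1) < k + l := by omega
      rw [Nat.mod_eq_of_lt h5] at hres
      have h6 : p ^ b < p ^ (b + 1) := Nat.pow_lt_pow_right hp.one_lt (by omega)
      omega
    · exact hbad
  apply le_antisymm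
  · obtain ⟨A, hA, hAc⟩ := exists_mu k l (by omega) G
    obtain ⟨B, hB, hBc⟩ := Pool.Agent.H59.KG.upper G κ (by
      intro x; rw [← hexp]; exact AddMonoid.exponent_nsmul_eq_zero x) k l hl hlk h4 hbad' A hA
    rw [hAc, mul_comm]
    refine hBc.trans ?_
    rw [mul_comm]
    exact Nat.mul_le_mul_left _ (le_mu k l (ZMod κ) B hB)
  · obtain ⟨B, hB, hBc⟩ := exists_mu k l (by omega) (ZMod κ)
    obtain ⟨f, hf⟩ := Pool.Agent.H59.KG.exists_surj G κ hexp
    obtain ⟨A, hA, hAc⟩ := Pool.Agent.H59.KG.pull f hf k l B hB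
    rw [ZMod.card] at hAc
    rw [hBc, mul_comm, ← hAc, mul_comm]
    exact Nat.mul_le_mul_left _ (le_mu k l G A hA)

end Pool.Agent.Results.MP_eddea8_co.AllGroups
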